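import Mathlib

/-!
# Project XD (helper682), job XD-RAM: one place above `l` in a subfield of a cyclotomic field
-/

set_option autoImplicit false

open NumberField IsDedekindDomain

namespace Pool.Agent.Y419.XD

theorem place_eq (l k : ℕ) [NeZero (l ^ (k + 1))] (hl : l.Prime) (L : Type) [Field L]
    [NumberField L] [IsCyclotomicExtension {l ^ (k + 1)} ℚ L] {ζ : L}
    (hζ : IsPrimitiveRoot ζ (l ^ (k + 1))) (K : IntermediateField ℚ L)
    (v : HeightOneSpectrum (𝓞 K)) (hv : ((l : ℕ) : 𝓞 K) ∈ v.asIdeal) :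
    v.asIdeal = (Ideal.span {hζ.toInteger - 1}).comap (algebraMap (𝓞 K) (𝓞 L)) := by
  have : Fact l.Prime := ⟨hl⟩
  have := v.isPrime
  obtain ⟨Q, -, hQ, hQv⟩ := Ideal.exists_ideal_over_prime_of_isIntegral (S := 𝓞 L) v.asIdeal
    (⊥ : Ideal (𝓞 L)) (by
      intro x hx
      rw [Ideal.mem_comap, Ideal.mem_bot] at hx
      have h1 : x = 0 := (FaithfulSMul.algebraMap_injective (𝓞 K) (𝓞 L)) (by rw [hx, map_zero])
      rw [h1]
      exact v.asIdeal.zero_mem)
  have := hQ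
  have hlQ : ((l : ℤ) : 𝓞 L) ∈ Q := by
    rw [← hQv, Ideal.mem_comap, map_natCast] at hv
    exact_mod_cast hv
  have : Q.LiesOver (Ideal.span {(l : ℤ)}) := by
    constructor
    have hmax : (Ideal.span {(l : ℤ)}).IsMaximal :=
      PrincipalIdealRing.isMaximal_of_irreducible
        (Nat.prime_iff_prime_int.1 hl).irreducible
    refine hmax.eq_of_le (Ideal.IsPrime.ne_top (Ideal.comap_isPrime _ Q)) ?_
    rw [Ideal.span_singleton_le_iff_mem, Ideal.mem_comap]
    exact hlQ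
  rw [← hQv, IsCyclotomicExtension.Rat.eq_span_zeta_sub_one_of_liesOver l k L hζ Q]

theorem ram (l k : ℕ) [NeZero (l ^ (k + 1))] (hl : l.Prime) (L : Type) [Field L]
    [NumberField L] [IsCyclotomicExtension {l ^ (k + 1)} ℚ L] (K : IntermediateField ℚ L)
    (v w : HeightOneSpectrum (𝓞 K)) (hv : ((l : ℕ) : 𝓞 K) ∈ v.asIdeal)
    (hw : ((l : ℕ) : 𝓞 K) ∈ w.asIdeal) : v = w := by
  have hζ := IsCyclotomicExtension.zeta_spec (l ^ (k + 1)) ℚ L
  apply HeightOneSpectrum.ext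
  rw [place_eq l k hl L hζ K v hv, place_eq l k hl L hζ K w hw]

end Pool.Agent.Y419.XD
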