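import Pool.Agent.Y682.XD.Stm3
import Pool.Agent.Y419.XD.RamCore

/-!
# Project XD (helper682), job XD-RAM
-/

set_option autoImplicit false

namespace Pool.Agent.Y419.XD

theorem s_ram : Pool.Agent.Y682.XD.S_RAM := by
  intro l k _ hl L _ _ _ K v w hv hw
  exact ram l k hl L K v w hv hw

end Pool.Agent.Y419.XD
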